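import Mathlib

set_option autoImplicit false
set_option linter.unusedSectionVars false

/-! Principal minors: expansion of `det (1 + z A)` and Sylvester's identity. -/

namespace Pool.Agent.Lib.Gkk

open Finset Matrix

variable {ι : Type} [Fintype ι] [DecidableEq ι]

/-- The principal minor on a finite set of indices. -/
noncomputable def pm (A : Matrix ι ι ℂ) (S : Finset ι) : ℂ :=
  (A.submatrix (Subtype.val : S → ι) (Subtype.val : S → ι)).det

theorem pm_empty (A : Matrix ι ι ℂ) : pm A ∅ = 1 := by
  unfold pm
  exact det_isEmpty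

theorem det_add_one (M : Matrix ι ι ℂ) : (M + 1).det = ∑ S, pm M S := by
  have h := (detRowAlternating : (ι → ℂ) [⋀^ι]→ₗ[ℂ] ℂ).map_add_univ (fun i => M i)
    (fun i => (1 : Matrix ι ι ℂ) i)
  exact h.trans (sum_congr rfl fun S _ => det_piecewise_one_eq_submatrix_det M S)

theorem det_smul_add_one (A : Matrix ι ι ℂ) (z : ℂ) :
    (z • A + 1).det = ∑ S : Finset ι, z ^ S.card * pm A S := by
  rw [det_add_one]
  refine sum_congr rfl fun S _ => ?_
  unfold pm
  rw [submatrix_smul]
  simp only [Pi.smul_apply, det_smul, Fintype.card_coe]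

theorem exists_equiv {κ κ' : Type} {f : κ → ι} {f' : κ' → ι} (hf : Function.Injective f)
    (hf' : Function.Injective f') (h : Set.range f' = Set.range f) :
    ∃ e : κ' ≃ κ, f' = f ∘ e := by
  refine ⟨(Equiv.ofInjective f' hf').trans ((Equiv.setCongr h).trans (Equiv.ofInjective f hf).symm),
    funext fun x => ?_⟩
  simp only [Function.comp, Equiv.trans_apply]
  rw [Equiv.apply_ofInjective_symm hf]
  rfl

theorem det_range {κ : Type} [Fintype κ] [DecidableEq κ] (A : Matrix ι ι ℂ) {f : κ → ι}
    (hf : Function.Injective f) {S : Finset ι} (h : Set.range f = ↑S) :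
    (A.submatrix f f).det = pm A S := by
  obtain ⟨e, rfl⟩ := exists_equiv (f := (Subtype.val : S → ι)) Subtype.val_injective hf
    (by rw [h]; ext x; simp)
  unfold pm
  rw [← submatrix_submatrix, det_submatrix_equiv_self]

theorem det_pair {κ κ' : Type} [Fintype κ] [DecidableEq κ] [Fintype κ'] [DecidableEq κ']
    (A : Matrix ι ι ℂ) {f g : κ → ι} {f' g' : κ' → ι} (hf : Function.Injective f)
    (hg : Function.Injective g) (hf' : Function.Injective f') (hg' : Function.Injective g')
    (h1 : Set.range f' = Set.range f) (h2 : Set.range g' = Set.range g) :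
    (A.submatrix f' g').det * (A.submatrix g' f').det =
      (A.submatrix f g).det * (A.submatrix g f).det := by
  obtain ⟨e1, rfl⟩ := exists_equiv hf hf' h1
  obtain ⟨e2, rfl⟩ := exists_equiv hg hg' h2
  have a1 : A.submatrix (f ∘ e1) (g ∘ e2) =
      ((A.submatrix f g).submatrix id (e1.symm.trans e2)).submatrix e1 e1 := by
    ext x y; simp
  have a2 : A.submatrix (g ∘ e2) (f ∘ e1) =
      ((A.submatrix g f).submatrix (e1.symm.trans e2) id).submatrix e1 e1 := by
    ext x y; simp
  rw [a1, a2, det_submatrix_equiv_self, det_submatrix_equiv_self, det_permute', det_permute]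
  rcases Int.units_eq_one_or (Equiv.Perm.sign (e1.symm.trans e2)) with h | h <;> simp [h]

theorem schur {κ : Type} [Fintype κ] [DecidableEq κ] (A : Matrix ι ι ℂ) (f : κ → ι)
    (h : (A.submatrix f f).det ≠ 0) :
    ∃ B : Matrix ι ι ℂ, ∀ (m : ℕ) (g g' : Fin m → ι),
      (A.submatrix (Sum.elim f g) (Sum.elim f g')).det =
        (A.submatrix f f).det * (B.submatrix g g').det := by
  have : Invertible (A.submatrix f f) := invertibleOfIsUnitDet _ (isUnit_iff_ne_zero.2 h)
  refine ⟨A - A.submatrix id f * ⅟(A.submatrix f f) * A.submatrix f id, fun m g g' => ?_⟩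
  have e : A.submatrix (Sum.elim f g) (Sum.elim f g') =
      fromBlocks (A.submatrix f f) (A.submatrix f g') (A.submatrix g f) (A.submatrix g g') := by
    ext x y
    cases x <;> cases y <;> rfl
  rw [e, det_fromBlocks₁₁]
  rfl

theorem elim_inj {S : Finset ι} {m : ℕ} {g : Fin m → ι} (hg : Function.Injective g)
    (h : ∀ x, g x ∉ S) : Function.Injective (Sum.elim (Subtype.val : S → ι) g) := by
  refine Subtype.val_injective.sumElim hg ?_
  rintro ⟨a, ha⟩ b hab
  exact h b (hab ▸ ha)

/-- Sylvester's identity for a pair of opposite almost principal minors. -/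
theorem sylvester {κ : Type} [Fintype κ] [DecidableEq κ] (A : Matrix ι ι ℂ) {S : Finset ι}
    {i j : ι} (hi : i ∉ S) (hj : j ∉ S) (hij : i ≠ j) (h : pm A S ≠ 0) {f g : κ → ι}
    (hf : Function.Injective f) (hg : Function.Injective g)
    (h1 : Set.range f = ↑(insert i S)) (h2 : Set.range g = ↑(insert j S)) :
    (A.submatrix f g).det * (A.submatrix g f).det =
      pm A (insert i S) * pm A (insert j S) - pm A S * pm A (insert i (insert j S)) := by
  obtain ⟨B, hB⟩ := schur A (Subtype.val : S → ι) h
  have inj1 : ∀ x : ι, x ∉ S → Function.Injective (Sum.elim (Subtype.val : S → ι) ![x]) :=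
    fun x hx => elim_inj (Function.injective_of_subsingleton _) (by simpa using hx)
  have rg1 : ∀ x : ι, Set.range (Sum.elim (Subtype.val : S → ι) ![x]) = ↑(insert x S) := by
    intro x; ext y; simp
  have inj2 : Function.Injective (Sum.elim (Subtype.val : S → ι) ![i, j]) := by
    refine elim_inj ?_ ?_
    · intro x y hxy
      fin_cases x <;> fin_cases y <;> simp_all
    · intro x; fin_cases x <;> simpa
  have rg2 : Set.range (Sum.elim (Subtype.val : S → ι) ![i, j]) = ↑(insert i (insert j S)) := by
    ext y; simp; tauto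
  rw [det_pair A (inj1 i hi) (inj1 j hj) hf hg (h1.trans (rg1 i).symm) (h2.trans (rg1 j).symm),
    ← det_range A (inj1 i hi) (rg1 i), ← det_range A (inj1 j hj) (rg1 j), ← det_range A inj2 rg2,
    hB, hB, hB, hB, hB]
  simp only [det_fin_one, det_fin_two, submatrix_apply, cons_val_zero, cons_val_one, pm]
  ring

end Pool.Agent.Lib.Gkk
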