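import Mathlib

set_option autoImplicit false

/-! A three-parameter family of matrices with explicit principal minors and spectra. -/

namespace Pool.Agent.Lib.Gkk

open Matrix

/-- First row `w`, rest of the first column `a - b`, diagonal `a`, and `a - b` above it. -/
def fam (n : ℕ) (a b w : ℝ) : Matrix (Fin n) (Fin n) ℂ := Matrix.of fun i j =>
  if i.val = 0 then (w : ℂ) else if j.val = 0 then (a - b : ℂ) else if i = j then (a : ℂ)
    else if i < j then (a - b : ℂ) else 0

/-- The triangular block. -/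
def tri (n : ℕ) (a b : ℝ) : Matrix (Fin n) (Fin n) ℂ := Matrix.of fun i j =>
  if i = j then (a : ℂ) else if i < j then (a - b : ℂ) else 0

theorem det_tri (n : ℕ) (a b : ℝ) (x : ℂ) : (tri n a b - x • 1).det = (a - x) ^ n := by
  rw [det_of_isUpperTriangular]
  · simp [tri]
  · intro i j h
    have h' : j < i := h
    simp [tri, h'.ne', h'.not_gt]

theorem det_fam (m : ℕ) (a b w : ℝ) (x : ℂ) :
    (fam (m + 1) a b w - x • 1).det = w * (b - x) ^ m - x * (a - x) ^ m := by
  set X := fam (m + 1) a b w - x • 1 with hX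
  have e : X = X.updateRow 0 ((w : ℂ) • (fun _ => (1 : ℂ)) + (-x) • Pi.single 0 (1 : ℂ)) := by
    ext i j
    by_cases hi : i = 0
    · subst hi
      by_cases hj : j = 0
      · subst hj; simp [hX, fam, sub_eq_add_neg]
      · simp [hX, fam, hj, Ne.symm hj]
    · simp [updateRow_ne hi]
  have d2 : (X.updateRow 0 (Pi.single 0 (1 : ℂ))).det = (a - x) ^ m := by
    rw [det_succ_row_zero, Fin.sum_univ_succ, ← det_tri m a b x]
    simp only [updateRow_self, Pi.single_eq_same, Pi.single_eq_of_ne (Fin.succ_ne_zero _),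
      mul_zero, zero_mul, Finset.sum_const_zero, add_zero, Fin.val_zero, pow_zero, one_mul,
      Fin.succAbove_zero]
    congr 1
    ext i j
    simp [hX, fam, tri, one_apply]
  have d1 : (X.updateRow 0 (fun _ => (1 : ℂ))).det = (b - x) ^ m := by
    let Y : Matrix (Fin (m + 1)) (Fin (m + 1)) ℂ := Matrix.of fun i j =>
      if i = 0 then 1 else if j = 0 then 0 else if i = j then b - x
        else if i < j then 0 else -(a - b : ℂ)
    have h1 : (X.updateRow 0 (fun _ => (1 : ℂ))).det = Y.det := by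
      refine det_eq_of_forall_row_eq_smul_add_const
        (fun i => if i = 0 then 0 else (a - b : ℂ)) 0 (by simp) fun i j => ?_
      by_cases hi : i = 0
      · subst hi; simp [Y]
      · rw [updateRow_ne hi]
        by_cases hj : j = 0
        · subst hj; simp [Y, hX, fam, hi]
        · by_cases hij : i = j
          · subst hij; simp [Y, hX, fam, hi]
          · by_cases hl : i < j <;> simp [Y, hX, fam, hi, hj, hij, hl]
    rw [h1, det_succ_column_zero, Fin.sum_univ_succ]
    simp only [Y, of_apply, if_true, Fin.succ_ne_zero, if_false, mul_zero, zero_mul,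
      Finset.sum_const_zero, add_zero, Fin.val_zero, pow_zero, one_mul, Fin.succAbove_zero]
    rw [det_of_isLowerTriangular]
    · simp
    · intro i j h
      have h' : i < j := h
      simp [h'.ne, h']
  rw [e, det_updateRow_add, det_updateRow_smul, det_updateRow_smul, d1, d2]
  ring

theorem sub_cases {n k : ℕ} (a b w : ℝ) (α : Fin (k + 1) ↪o Fin n) :
    ((α 0).val = 0 ∧ (fam n a b w).submatrix α α = fam (k + 1) a b w) ∨
      ((∀ i, (α i).val ≠ 0) ∧ (fam n a b w).submatrix α α = tri (k + 1) a b) := by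
  by_cases h : (α 0).val = 0
  · refine Or.inl ⟨h, ?_⟩
    have h1 : ∀ i, (α i).val = 0 ↔ i.val = 0 := by
      intro i
      constructor
      · intro hi
        have : α i = α 0 := Fin.ext (hi.trans h.symm)
        rw [α.injective this]; rfl
      · intro hi
        have : i = 0 := Fin.ext hi
        rw [this, h]
    ext i j
    simp only [fam, submatrix_apply, of_apply, h1, α.injective.eq_iff, α.lt_iff_lt]
  · have h1 : ∀ i, (α i).val ≠ 0 := by
      intro i hi
      have : α 0 ≤ α i := α.monotone (Fin.zero_le i)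
      have h2 : (α 0).val ≤ (α i).val := this
      omega
    refine Or.inr ⟨h1, ?_⟩
    ext i j
    simp only [fam, tri, submatrix_apply, of_apply, h1, if_false, α.injective.eq_iff, α.lt_iff_lt]

theorem mem_spec {n : ℕ} {A : Matrix (Fin n) (Fin n) ℂ} {μ : ℂ} :
    μ ∈ spectrum ℂ A ↔ (A - μ • 1).det = 0 := by
  rw [Matrix.mem_spectrum_iff_isRoot_charpoly, Polynomial.IsRoot.def, Matrix.eval_charpoly]
  have : Matrix.scalar (Fin n) μ - A = -(A - μ • 1) := by
    rw [neg_sub, scalar_apply, smul_one_eq_diagonal]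
  rw [this, det_neg]
  simp

/-- The real characteristic function of the family. -/
def ff (a b w : ℝ) (m : ℕ) (x : ℝ) : ℝ := w * (b - x) ^ m - x * (a - x) ^ m

theorem spec_fam {m : ℕ} {a b w x : ℝ} :
    (x : ℂ) ∈ spectrum ℂ (fam (m + 1) a b w) ↔ ff a b w m x = 0 := by
  rw [mem_spec, det_fam, ff]
  norm_cast

theorem spec_tri {m : ℕ} {a b x : ℝ} : (x : ℂ) ∈ spectrum ℂ (tri (m + 1) a b) ↔ x = a := by
  rw [mem_spec, det_tri, pow_eq_zero_iff (Nat.succ_ne_zero m), sub_eq_zero]
  norm_cast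
  exact eq_comm

variable {a b w : ℝ}

theorem ff_pos (hb : 0 < b) (hab : b < a) (hw : 0 < w) {m : ℕ} {x : ℝ} (hx : x ≤ 0) :
    0 < ff a b w m x := by
  have h1 : 0 < w * (b - x) ^ m := mul_pos hw (pow_pos (by linarith) m)
  have h2 : 0 ≤ -x * (a - x) ^ m := mul_nonneg (by linarith) (pow_nonneg (by linarith) m)
  unfold ff
  linarith

theorem ff_root (hb : 0 < b) (hab : b < a) (hw : 0 < w) {m : ℕ} {x : ℝ} (h0 : 0 ≤ x)
    (hx : ff a b w m x ≤ 0) : ∃ y ≤ x, ff a b w m y = 0 := by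
  have hc : ContinuousOn (ff a b w m) (Set.Icc 0 x) := by
    unfold ff; fun_prop
  obtain ⟨y, hy, hy'⟩ := intermediate_value_Icc' h0 hc ⟨hx, (ff_pos hb hab hw le_rfl).le⟩
  exact ⟨y, hy.2, hy'⟩

theorem ff_one (hb : 0 < b) (hab : b < a) (hw : 0 < w) {m : ℕ} (hm : 0 < m) :
    ∃ y ≤ b, ff a b w m y = 0 := by
  refine ff_root hb hab hw hb.le ?_
  have : 0 < b * (a - b) ^ m := mul_pos hb (pow_pos (by linarith) m)
  unfold ff
  rw [sub_self, zero_pow hm.ne']
  linarith

theorem ff_mono (hb : 0 < b) (hab : b < a) (hw : 0 < w) {j m : ℕ} (h : j ≤ m) {x : ℝ}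
    (hx : ff a b w j x = 0) : ∃ y ≤ x, ff a b w m y = 0 := by
  have h0 : 0 < x := by
    by_contra hn
    exact (ff_pos hb hab hw (not_lt.1 hn)).ne' hx
  obtain ⟨d, rfl⟩ := Nat.exists_eq_add_of_le h
  rcases Nat.eq_zero_or_pos d with rfl | hd
  · exact ⟨x, le_rfl, hx⟩
  by_cases h1 : b ≤ x
  · obtain ⟨y, hy, hy'⟩ := ff_one hb hab hw (m := j + d) (by omega)
    exact ⟨y, hy.trans h1, hy'⟩
  · refine ff_root hb hab hw h0.le ?_
    have h2 : (b - x) ^ d ≤ (a - x) ^ d := pow_le_pow_left₀ (by linarith) (by linarith) d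
    have h3 : 0 ≤ x * (a - x) ^ j := mul_nonneg h0.le (pow_nonneg (by linarith) j)
    have h4 := mul_le_mul_of_nonneg_left h2 h3
    unfold ff at hx ⊢
    rw [pow_add, pow_add, ← mul_assoc, sub_eq_zero.1 hx]
    linarith

theorem shift (r θ φ : ℝ) (h : Real.sin φ ≠ 0) :
    ((r * Real.sin (θ - φ) / Real.sin φ : ℝ) : ℂ) + r * Complex.exp (θ * Complex.I) =
      ((r * Real.sin θ / Real.sin φ : ℝ) : ℂ) * Complex.exp (φ * Complex.I) := by
  apply Complex.ext
  · simp only [Complex.add_re, Complex.ofReal_re, Complex.re_ofReal_mul,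
      Complex.exp_ofReal_mul_I_re, Real.sin_sub]
    field_simp
    ring
  · simp only [Complex.add_im, Complex.ofReal_im, Complex.im_ofReal_mul,
      Complex.exp_ofReal_mul_I_im]
    field_simp
    ring

theorem attain_polar {m : ℕ} {r θ : ℝ} (hr : 0 < r) (h1 : Real.pi < ((m : ℝ) - 1) * θ)
    (h0 : 0 < θ) (h2 : θ < Real.pi) :
    ∃ a b w : ℝ, 0 < b ∧ b < a ∧ 0 < w ∧
      (w : ℂ) * (b + r * Complex.exp (θ * Complex.I)) ^ m +
        r * Complex.exp (θ * Complex.I) * (a + r * Complex.exp (θ * Complex.I)) ^ m = 0 := by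
  have hpi := Real.pi_pos
  have hm : (0 : ℝ) < m := by
    by_contra hn
    nlinarith [not_lt.1 hn]
  obtain ⟨δ, hδ⟩ : ∃ δ : ℝ, m * δ = Real.pi + θ := ⟨(Real.pi + θ) / m, by field_simp⟩
  have d0 : 0 < δ := by
    by_contra hn
    nlinarith [not_lt.1 hn]
  have d1 : δ < θ := by
    by_contra hn
    nlinarith [not_lt.1 hn]
  obtain ⟨ε, e0, e1⟩ : ∃ ε : ℝ, 0 < ε ∧ ε + δ < θ := ⟨(θ - δ) / 2, by linarith, by linarith⟩
  have s0 : 0 < Real.sin θ := Real.sin_pos_of_pos_of_lt_pi h0 h2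
  have s1 : 0 < Real.sin ε := Real.sin_pos_of_pos_of_lt_pi e0 (by linarith)
  have s2 : 0 < Real.sin (ε + δ) := Real.sin_pos_of_pos_of_lt_pi (by linarith) (by linarith)
  have s3 : 0 < Real.sin (θ - (ε + δ)) := Real.sin_pos_of_pos_of_lt_pi (by linarith) (by linarith)
  have s4 : 0 < Real.sin ((ε + δ) - ε) := Real.sin_pos_of_pos_of_lt_pi (by linarith) (by linarith)
  refine ⟨r * Real.sin (θ - ε) / Real.sin ε, r * Real.sin (θ - (ε + δ)) / Real.sin (ε + δ),
    r * (Real.sin (ε + δ) / Real.sin ε) ^ m, by positivity, ?_, by positivity, ?_⟩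
  · rw [div_lt_div_iff₀ s2 s1]
    have := mul_pos hr (mul_pos s0 s4)
    rw [Real.sin_sub] at this
    rw [Real.sin_sub, Real.sin_sub]
    nlinarith
  · rw [shift r θ ε s1.ne', shift r θ (ε + δ) s2.ne', mul_pow, mul_pow, ← Complex.exp_nat_mul,
      ← Complex.exp_nat_mul]
    have e : Complex.exp (m * (((ε + δ : ℝ) : ℂ) * Complex.I)) =
        -(Complex.exp (θ * Complex.I) * Complex.exp (m * (ε * Complex.I))) := by
      have h3 : (m : ℂ) * δ = Real.pi + θ := by exact_mod_cast hδ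
      have h4 : (m : ℂ) * (((ε + δ : ℝ) : ℂ) * Complex.I) =
          Real.pi * Complex.I + (θ * Complex.I + m * (ε * Complex.I)) := by
        push_cast
        linear_combination Complex.I * h3
      rw [h4, Complex.exp_add, Complex.exp_add, Complex.exp_pi_mul_I]
      ring
    have f : r * (Real.sin (ε + δ) / Real.sin ε) ^ m * (r * Real.sin θ / Real.sin (ε + δ)) ^ m =
        r * (r * Real.sin θ / Real.sin ε) ^ m := by
      rw [mul_assoc, ← mul_pow]
      congr 2
      field_simp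
    have f' := congrArg (fun x : ℝ => (x : ℂ)) f
    simp only [Complex.ofReal_mul, Complex.ofReal_pow] at f' ⊢
    rw [e]
    linear_combination (-(Complex.exp (θ * Complex.I) * Complex.exp (m * (ε * Complex.I)))) * f'

theorem attain {m : ℕ} (hm : 2 ≤ m) {μ : ℂ} (h0 : μ ≠ 0)
    (h : |μ.arg| < Real.pi - Real.pi / ((m : ℝ) - 1)) :
    ∃ a b w : ℝ, 0 < b ∧ b < a ∧ 0 < w ∧ (w : ℂ) * (b - μ) ^ m - μ * (a - μ) ^ m = 0 := by
  have hr : 0 < ‖μ‖ := norm_pos_iff.2 h0
  have hm' : (0 : ℝ) < (m : ℝ) - 1 := by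
    have : (2 : ℝ) ≤ m := by exact_mod_cast hm
    linarith
  have hq : 0 < Real.pi / ((m : ℝ) - 1) := div_pos Real.pi_pos hm'
  have neg : ∀ ν : ℂ, ν ≠ 0 → ν.arg < 0 → -ν.arg < Real.pi - Real.pi / ((m : ℝ) - 1) →
      ∃ a b w : ℝ, 0 < b ∧ b < a ∧ 0 < w ∧ (w : ℂ) * (b - ν) ^ m - ν * (a - ν) ^ m = 0 := by
    intro ν n0 n1 n2
    have h3 : Real.pi / ((m : ℝ) - 1) < Real.pi + ν.arg := by linarith
    obtain ⟨a, b, w, hb, hab, hw, e⟩ := attain_polar (m := m) (θ := Real.pi + ν.arg)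
      (norm_pos_iff.2 n0) (by rw [div_lt_iff₀ hm'] at h3; linarith) (by linarith) (by linarith)
    have e2 : (‖ν‖ : ℂ) * Complex.exp (((Real.pi + ν.arg : ℝ) : ℂ) * Complex.I) = -ν := by
      push_cast
      rw [add_mul, Complex.exp_add, Complex.exp_pi_mul_I]
      linear_combination (-1 : ℂ) * Complex.norm_mul_exp_arg_mul_I ν
    rw [e2] at e
    exact ⟨a, b, w, hb, hab, hw, by rw [sub_eq_add_neg, sub_eq_add_neg, sub_eq_add_neg, ← e]; ring⟩
  rcases lt_trichotomy μ.arg 0 with h1 | h1 | h1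
  · exact neg μ h0 h1 (by rwa [abs_of_neg h1] at h)
  · have e : μ = (‖μ‖ : ℝ) := by
      have := Complex.norm_mul_exp_arg_mul_I μ
      rw [h1] at this
      simpa using this.symm
    refine ⟨3 * ‖μ‖, 2 * ‖μ‖, ‖μ‖ * 2 ^ m, by positivity, by linarith, by positivity, ?_⟩
    push_cast
    rw [← e, show 2 * μ - μ = μ by ring, show 3 * μ - μ = 2 * μ by ring, mul_pow]
    ring
  · rw [abs_of_pos h1] at h
    have e : ((starRingEnd ℂ) μ).arg = -μ.arg := by
      rw [Complex.arg_conj, if_neg (by linarith)]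
    obtain ⟨a, b, w, hb, hab, hw, e2⟩ := neg ((starRingEnd ℂ) μ) (by simpa using h0)
      (by linarith) (by linarith)
    refine ⟨a, b, w, hb, hab, hw, ?_⟩
    have := congrArg (starRingEnd ℂ) e2
    simpa using this

end Pool.Agent.Lib.Gkk
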