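import Mathlib

set_option autoImplicit false
set_option linter.unusedSectionVars false

/-! Zero-free sector for generating polynomials of log-submodular set functions. -/

namespace Pool.Agent.Lib.Gkk

open Finset

variable {ι : Type} [Fintype ι] [DecidableEq ι]

/-- Local log-submodularity. -/
def Sub (w : Finset ι → ℝ) : Prop :=
  ∀ (S : Finset ι) (i j : ι), i ∉ S → j ∉ S → i ≠ j →
    w S * w (insert i (insert j S)) ≤ w (insert i S) * w (insert j S)

omit [Fintype ι] in
theorem ratio {w : Finset ι → ℝ} (hp : ∀ S, 0 < w S) (hs : Sub w) {S T : Finset ι} {j : ι}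
    (hST : S ⊆ T) (hj : j ∉ T) : w (insert j T) * w S ≤ w (insert j S) * w T := by
  have key : ∀ U : Finset ι, j ∉ U →
      w (insert j (S ∪ U)) * w S ≤ w (insert j S) * w (S ∪ U) := by
    intro U
    induction U using Finset.induction_on with
    | empty => intro _; simp
    | insert i U hi ih =>
      intro hjU
      have hji : j ≠ i := fun h => hjU (h ▸ mem_insert_self _ _)
      have hjU' : j ∉ U := fun h => hjU (mem_insert_of_mem h)
      have ih' := ih hjU'
      rw [union_insert]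
      by_cases hi' : i ∈ S ∪ U
      · rw [insert_eq_of_mem hi']; exact ih'
      · have hjS : j ∉ S ∪ U := by
          rw [mem_union, not_or]; exact ⟨fun h => hj (hST h), hjU'⟩
        have h1 := hs (S ∪ U) j i hjS hi' hji
        have hY := hp (S ∪ U)
        have hV := hp (insert i (S ∪ U))
        have hP := hp S
        have h2 := mul_le_mul_of_nonneg_right h1 hP.le
        have h3 := mul_le_mul_of_nonneg_right ih' hV.le
        refine le_of_mul_le_mul_left ?_ hY
        nlinarith
  have := key T hj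
  rwa [union_eq_right.2 hST] at this

/-- Sum of the weights of the `k`-sets. -/
noncomputable def lev (w : Finset ι → ℝ) (k : ℕ) : ℝ := ∑ S ∈ powersetCard k univ, w S

theorem lev_compl (w : Finset ι → ℝ) {k : ℕ} (hk : k ≤ Fintype.card ι) :
    lev (fun S => w Sᶜ) k = lev w (Fintype.card ι - k) := by
  unfold lev
  refine Finset.sum_nbij' (fun S => Sᶜ) (fun S => Sᶜ) ?_ ?_ ?_ ?_ ?_
  · intro S hS
    simp only [mem_powersetCard, subset_univ, true_and] at hS ⊢
    rw [card_compl, hS]
  · intro S hS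
    simp only [mem_powersetCard, subset_univ, true_and] at hS ⊢
    rw [card_compl, hS]; omega
  · intro S _; simp
  · intro S _; simp
  · intro S _; rfl

theorem lev_one (w : Finset ι → ℝ) : lev w 1 = ∑ i, w {i} := by
  unfold lev
  rw [powersetCard_one, sum_map]; rfl

theorem lev_top (w : Finset ι → ℝ) : lev w (Fintype.card ι) = w univ := by
  unfold lev
  rw [← card_univ, powersetCard_self, sum_singleton]

theorem lev_nonneg {w : Finset ι → ℝ} (hp : ∀ S, 0 < w S) (k : ℕ) : 0 ≤ lev w k :=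
  sum_nonneg fun S _ => (hp S).le

theorem lev_two {w : Finset ι → ℝ} (hp : ∀ S, 0 < w S) (i : ι) :
    ∑ j ∈ univ.erase i, w (insert j {i}) ≤ lev w 2 := by
  have hinj : Set.InjOn (fun j : ι => (insert j {i} : Finset ι)) ↑(univ.erase i) := by
    intro x hx y _ hxy
    have hx' : x ≠ i := by simpa using hx
    have : x ∈ (insert y {i} : Finset ι) := by
      have h : (insert x {i} : Finset ι) = insert y {i} := hxy
      rw [← h]; exact mem_insert_self _ _
    simpa [hx'] using this
  rw [← sum_image (f := w) hinj]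
  refine sum_le_sum_of_subset_of_nonneg ?_ fun S _ _ => (hp S).le
  intro S hS
  obtain ⟨j, hj, rfl⟩ := mem_image.1 hS
  have hj' : j ≠ i := by simpa using hj
  simp [mem_powersetCard, card_pair hj']

theorem key {w : Finset ι → ℝ} (hp : ∀ S, 0 < w S) (hs : Sub w) (hn : 4 ≤ Fintype.card ι)
    (h : lev w (Fintype.card ι - 1) ≤ lev w 1) : 2 * lev w (Fintype.card ι) < lev w 2 := by
  have hne : (univ : Finset ι).Nonempty := by
    rw [← card_pos, card_univ]; omega
  obtain ⟨i, -, hi⟩ := exists_max_image univ (fun i => w {i}) hne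
  rw [← lev_compl w (by omega), lev_one, lev_one] at h
  rw [lev_top]
  have hd := hp {i}
  have hW := hp univ
  have h1 : ∑ j, w {j} ≤ Fintype.card ι * w {i} := by
    have := sum_le_card_nsmul univ (fun j => w {j}) (w {i}) hi
    rwa [card_univ, nsmul_eq_mul] at this
  have h2 : ∀ j ∈ univ.erase i, w univ * (2 * w {i} - w {j}ᶜ) ≤ w {i} * w (insert j {i}) := by
    intro j hj
    have hj' : j ≠ i := by simpa using hj
    have h3 := ratio hp hs (S := {i}) (T := {j}ᶜ) (j := j) (by simpa using hj') (by simp)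
    have h4 : insert j ({j}ᶜ : Finset ι) = univ := by
      ext x; by_cases hx : x = j <;> simp [hx]
    rw [h4] at h3
    have hm := hp {j}ᶜ
    refine le_of_mul_le_mul_left ?_ hm
    have h5 := mul_le_mul_of_nonneg_left h3 hd.le
    have h6 := mul_nonneg hW.le (sq_nonneg (w {i} - w {j}ᶜ))
    nlinarith
  have h3 := sum_le_sum h2
  rw [← mul_sum, ← mul_sum, sum_sub_distrib, sum_const, card_erase_of_mem (mem_univ i), card_univ,
    nsmul_eq_mul, Nat.cast_sub (by omega)] at h3
  have h4 : w {i}ᶜ + ∑ j ∈ univ.erase i, w {j}ᶜ = ∑ j, w {j}ᶜ :=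
    add_sum_erase univ (fun j => w {j}ᶜ) (mem_univ i)
  have h5 := hp {i}ᶜ
  have h6 := mul_le_mul_of_nonneg_left (lev_two hp i) hd.le
  have h7 : (4 : ℝ) ≤ Fintype.card ι := by exact_mod_cast hn
  have h8 : 2 * w {i} < ((Fintype.card ι : ℝ) - (1 : ℕ)) * (2 * w {i})
      - ∑ j ∈ univ.erase i, w {j}ᶜ := by
    push_cast
    nlinarith
  have h9 := mul_lt_mul_of_pos_left h8 hW
  refine lt_of_mul_lt_mul_left ?_ hd.le
  nlinarith

theorem sub_compl {w : Finset ι → ℝ} (hs : Sub w) : Sub fun S => w Sᶜ := by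
  intro S i j hi hj hij
  have h := hs (insert i (insert j S))ᶜ i j (by simp) (by simp) hij
  have e1 : insert i (insert j (insert i (insert j S))ᶜ) = Sᶜ := by
    ext x
    by_cases h1 : x = i
    · simp [h1, hi]
    · by_cases h2 : x = j
      · simp [h2, hj]
      · simp [h1, h2]
  have e2 : insert i (insert i (insert j S))ᶜ = (insert j S)ᶜ := by
    ext x
    by_cases h1 : x = i
    · simp [h1, hi, hij]
    · simp [h1]
  have e3 : insert j (insert i (insert j S))ᶜ = (insert i S)ᶜ := by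
    ext x
    by_cases h2 : x = j
    · simp [h2, hj, hij.symm]
    · simp [h2]
  rw [e1, e2, e3] at h
  simp only
  linarith

theorem sin_ge {θ s : ℝ} (h0 : 0 < θ) (h1 : 1 ≤ s) (h2 : (s + 1) * θ ≤ Real.pi) :
    Real.sin θ ≤ Real.sin (s * θ) := by
  have h3 : θ ≤ s * θ := by nlinarith
  have hpi := Real.pi_pos
  by_cases h : s * θ ≤ Real.pi / 2
  · exact Real.sin_le_sin_of_le_of_le_pi_div_two (by linarith) h h3
  · rw [← Real.sin_pi_sub (s * θ)]
    exact Real.sin_le_sin_of_le_of_le_pi_div_two (by linarith) (by linarith) (by linarith)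

theorem seq {a : ℕ → ℝ} (ha : ∀ k, 0 ≤ a k) {n : ℕ} (hn : 4 ≤ n) {θ : ℝ} (h0 : 0 < θ)
    (h1 : ((n : ℝ) - 2) * θ ≤ Real.pi)
    (H : ∀ t : ℝ, ∑ k ∈ range (n + 1), a k * Real.sin ((t - k) * θ) = 0)
    (k1 : a (n - 1) ≤ a 1 → 2 * a n < a 2) (k2 : a 1 ≤ a (n - 1) → 2 * a 0 < a (n - 2)) :
    False := by
  have hn' : (4 : ℝ) ≤ n := by exact_mod_cast hn
  have hθ : θ ≤ Real.pi / 2 := by nlinarith
  have hs : 0 < Real.sin θ := Real.sin_pos_of_pos_of_lt_pi h0 (by linarith [Real.pi_pos])
  have hc : 0 ≤ Real.cos θ := Real.cos_nonneg_of_neg_pi_div_two_le_of_le (by linarith) hθ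
  have hc1 := Real.cos_le_one θ
  have s2 := Real.sin_two_mul θ
  have nn : ∀ s : ℝ, 0 ≤ s → s ≤ n - 2 → 0 ≤ Real.sin (s * θ) := fun s h2 h3 =>
    Real.sin_nonneg_of_nonneg_of_le_pi (by positivity) (by nlinarith)
  rcases hn.eq_or_lt with rfl | hn5
  · have s3 : Real.sin (3 * θ) = Real.sin θ * (4 * Real.cos θ ^ 2 - 1) := by
      rw [Real.sin_three_mul]
      linear_combination (-4 * Real.sin θ) * Real.sin_sq_add_cos_sq θ
    have e2 := H 2
    have e3 := H 3
    simp only [sum_range_succ, sum_range_zero] at e2 e3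
    norm_num at e2 e3 k1 k2
    rw [s2] at e2 e3
    rw [s3] at e3
    have f2 : 2 * Real.cos θ * (a 0 - a 4) + (a 1 - a 3) = 0 := by
      apply mul_left_cancel₀ hs.ne'
      linear_combination e2
    have f3 : a 0 * (4 * Real.cos θ ^ 2 - 1) + a 1 * (2 * Real.cos θ) + a 2 - a 4 = 0 := by
      apply mul_left_cancel₀ hs.ne'
      linear_combination e3
    have g1 := mul_nonneg (ha 0) (sq_nonneg (Real.cos θ))
    have g2 := mul_nonneg (ha 1) hc
    have g3 : a 2 ≤ a 0 + a 4 := by nlinarith
    rcases le_total (a 0) (a 4) with h | h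
    · have := mul_nonneg hc (sub_nonneg.2 h)
      have := k1 (by nlinarith)
      linarith
    · have := mul_nonneg hc (sub_nonneg.2 h)
      have := k2 (by nlinarith)
      linarith
  · obtain ⟨m, rfl⟩ : ∃ m, n = m + 5 := ⟨n - 5, by omega⟩
    have hm : (0 : ℝ) ≤ m := Nat.cast_nonneg m
    push_cast at h1 nn
    have b1 : Real.sin θ ≤ Real.sin ((m + 1) * θ) := sin_ge h0 (by linarith) (by nlinarith)
    have b2 : Real.sin θ ≤ Real.sin ((m + 2) * θ) := sin_ge h0 (by linarith) (by nlinarith)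
    have b3 : 0 ≤ Real.sin ((m + 3) * θ) := nn _ (by linarith) (by linarith)
    have b4 : Real.sin (2 * θ) ≤ 2 * Real.sin θ := by nlinarith
    rw [show m + 5 - 1 = m + 4 from rfl] at k1 k2
    rw [show m + 5 - 2 = m + 3 from rfl] at k2
    rcases le_total (a (m + 4)) (a 1) with h | h
    · have e := H (m + 3)
      rw [sum_range_succ, sum_range_succ, sum_range_succ', sum_range_succ', sum_range_succ'] at e
      have p : 0 ≤ ∑ k ∈ range (m + 1),
          a (k + 1 + 1 + 1) * Real.sin (((m : ℝ) + 3 - ((k + 1 + 1 + 1 : ℕ) : ℝ)) * θ) := by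
        refine sum_nonneg fun k hk => mul_nonneg (ha _) (nn _ ?_ ?_)
        · have : (k : ℝ) ≤ m := by exact_mod_cast Nat.lt_succ_iff.1 (mem_range.1 hk)
          push_cast; linarith
        · have : (0 : ℝ) ≤ k := Nat.cast_nonneg k
          push_cast; linarith
      have q0 : ((m : ℝ) + 3 - ((0 : ℕ) : ℝ)) * θ = (m + 3) * θ := by push_cast; ring
      have q1 : ((m : ℝ) + 3 - ((0 + 1 : ℕ) : ℝ)) * θ = (m + 2) * θ := by push_cast; ring
      have q2 : ((m : ℝ) + 3 - ((0 + 1 + 1 : ℕ) : ℝ)) * θ = (m + 1) * θ := by push_cast; ring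
      have q3 : ((m : ℝ) + 3 - ((m + 4 : ℕ) : ℝ)) * θ = -θ := by push_cast; ring
      have q4 : ((m : ℝ) + 3 - ((m + 5 : ℕ) : ℝ)) * θ = -(2 * θ) := by push_cast; ring
      rw [q0, q1, q2, q3, q4, Real.sin_neg, Real.sin_neg] at e
      have c0 := mul_nonneg (ha 0) b3
      have c1 := mul_le_mul_of_nonneg_left b2 (ha 1)
      have c2 := mul_le_mul_of_nonneg_left b1 (ha 2)
      have c3 := mul_le_mul_of_nonneg_left b4 (ha (m + 5))
      have c4 := mul_lt_mul_of_pos_right (k1 h) hs
      have c5 := mul_le_mul_of_nonneg_right h hs.le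
      simp only [zero_add, Nat.reduceAdd] at e
      linarith
    · have e := H 2
      rw [sum_range_succ, sum_range_succ, sum_range_succ, sum_range_succ', sum_range_succ',
        sum_range_succ'] at e
      have p : ∑ k ∈ range m,
          a (k + 1 + 1 + 1) * Real.sin (((2 : ℝ) - ((k + 1 + 1 + 1 : ℕ) : ℝ)) * θ) ≤ 0 := by
        refine sum_nonpos fun k hk => mul_nonpos_of_nonneg_of_nonpos (ha _) ?_
        have h2 : (k : ℝ) ≤ m := by exact_mod_cast (mem_range.1 hk).le
        have h3 : (0 : ℝ) ≤ k := Nat.cast_nonneg k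
        rw [show ((2 : ℝ) - ((k + 1 + 1 + 1 : ℕ) : ℝ)) * θ = -((k + 1) * θ) by push_cast; ring,
          Real.sin_neg, neg_nonpos]
        exact nn _ (by linarith) (by linarith)
      have q0 : ((2 : ℝ) - ((0 : ℕ) : ℝ)) * θ = 2 * θ := by push_cast; ring
      have q1 : ((2 : ℝ) - ((0 + 1 : ℕ) : ℝ)) * θ = θ := by push_cast; ring
      have q2 : ((2 : ℝ) - ((0 + 1 + 1 : ℕ) : ℝ)) * θ = 0 := by push_cast; ring
      have q3 : ((2 : ℝ) - ((m + 3 : ℕ) : ℝ)) * θ = -((m + 1) * θ) := by push_cast; ring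
      have q4 : ((2 : ℝ) - ((m + 4 : ℕ) : ℝ)) * θ = -((m + 2) * θ) := by push_cast; ring
      have q5 : ((2 : ℝ) - ((m + 5 : ℕ) : ℝ)) * θ = -((m + 3) * θ) := by push_cast; ring
      rw [q0, q1, q2, q3, q4, q5, Real.sin_neg, Real.sin_neg, Real.sin_neg, Real.sin_zero] at e
      have c0 := mul_nonneg (ha (m + 5)) b3
      have c1 := mul_le_mul_of_nonneg_left b2 (ha (m + 4))
      have c2 := mul_le_mul_of_nonneg_left b1 (ha (m + 3))
      have c3 := mul_le_mul_of_nonneg_left b4 (ha 0)
      have c4 := mul_lt_mul_of_pos_right (k2 h) hs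
      have c5 := mul_le_mul_of_nonneg_right h hs.le
      simp only [zero_add, Nat.reduceAdd] at e
      linarith

theorem sum_lev (w : Finset ι → ℝ) (g : ℕ → ℝ) :
    ∑ S, w S * g S.card = ∑ k ∈ range (Fintype.card ι + 1), lev w k * g k := by
  rw [← powerset_univ, sum_powerset, card_univ]
  refine sum_congr rfl fun k _ => ?_
  unfold lev
  rw [sum_mul]
  exact sum_congr rfl fun S hS => by rw [(mem_powersetCard.1 hS).2]

theorem unit_free {w : Finset ι → ℝ} (hp : ∀ S, 0 < w S) (hs : Sub w)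
    (hn : 4 ≤ Fintype.card ι) {θ : ℝ} (h0 : 0 ≤ θ)
    (h1 : ((Fintype.card ι : ℝ) - 2) * θ ≤ Real.pi)
    (hc : ∑ S, w S * Real.cos (S.card * θ) = 0) (hsn : ∑ S, w S * Real.sin (S.card * θ) = 0) :
    False := by
  rcases h0.eq_or_lt with rfl | h0
  · simp only [mul_zero, Real.cos_zero, mul_one] at hc
    exact (sum_pos (fun S _ => hp S) univ_nonempty).ne' hc
  refine seq (lev_nonneg hp) hn h0 h1 (fun t => ?_) (key hp hs hn) fun h => ?_
  · rw [← sum_lev w fun k => Real.sin ((t - k) * θ)]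
    have : ∀ S : Finset ι, w S * Real.sin ((t - S.card) * θ) =
        Real.sin (t * θ) * (w S * Real.cos (S.card * θ)) -
          Real.cos (t * θ) * (w S * Real.sin (S.card * θ)) := by
      intro S; rw [sub_mul, Real.sin_sub]; ring
    simp only [this, sum_sub_distrib, ← mul_sum, hc, hsn, mul_zero, sub_zero]
  · have := key (w := fun S => w Sᶜ) (fun S => hp _) (sub_compl hs) hn (by
      rw [lev_compl w (by omega), lev_compl w (by omega), Nat.sub_sub_self (by omega)]
      exact h)
    rwa [lev_compl w le_rfl, lev_compl w (by omega), Nat.sub_self] at this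

/-- The generating polynomial of a positive log-submodular function on `n ≥ 4` points has no zero
in the closed sector of half-angle `π / (n - 2)`. -/
theorem zero_free {w : Finset ι → ℝ} (hp : ∀ S, 0 < w S) (hs : Sub w)
    (hn : 4 ≤ Fintype.card ι) {r φ : ℝ} (hr : 0 < r)
    (h1 : ((Fintype.card ι : ℝ) - 2) * |φ| ≤ Real.pi) :
    ∑ S : Finset ι, ((r : ℂ) * Complex.exp (φ * Complex.I)) ^ S.card * (w S : ℂ) ≠ 0 := by
  intro h
  have e : ∀ S : Finset ι, ((r : ℂ) * Complex.exp (φ * Complex.I)) ^ S.card * (w S : ℂ) =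
      ((w S * r ^ S.card : ℝ) : ℂ) * Complex.exp (((S.card * φ : ℝ) : ℂ) * Complex.I) := by
    intro S
    rw [mul_pow, ← Complex.exp_nat_mul]
    push_cast
    ring_nf
  simp only [e] at h
  have hre := congrArg Complex.re h
  have him := congrArg Complex.im h
  simp only [Complex.re_sum, Complex.im_sum, Complex.re_ofReal_mul, Complex.im_ofReal_mul,
    Complex.exp_ofReal_mul_I_re, Complex.exp_ofReal_mul_I_im, Complex.zero_re,
    Complex.zero_im] at hre him
  have hs' : Sub fun S : Finset ι => w S * r ^ S.card := by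
    intro S i j hi hj hij
    have hi' : i ∉ insert j S := by simp [hi, hij]
    simp only [card_insert_of_notMem hi', card_insert_of_notMem hi, card_insert_of_notMem hj]
    have := mul_le_mul_of_nonneg_right (hs S i j hi hj hij)
      (show 0 ≤ r ^ S.card * r ^ S.card * r * r by positivity)
    simp only [pow_succ]
    linarith
  refine unit_free (w := fun S => w S * r ^ S.card) (fun S => mul_pos (hp S) (pow_pos hr _)) hs'
    hn (abs_nonneg φ) h1 ?_ ?_
  · rcases abs_cases φ with ⟨h2, -⟩ | ⟨h2, -⟩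
    · rw [h2]; exact hre
    · simp only [h2, mul_neg, Real.cos_neg]; exact hre
  · rcases abs_cases φ with ⟨h2, -⟩ | ⟨h2, -⟩
    · rw [h2]; exact him
    · simp only [h2, mul_neg, Real.sin_neg, sum_neg_distrib, him, neg_zero]

end Pool.Agent.Lib.Gkk
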